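import Mathlib

/-!
# MP_28ce77: isomorphism-testing complexity versus number of isomorphism types

The assertion of Q1 compares the running times of isomorphism tests for two first-order definable
classes `J`, `K` whose numbers of isomorphism types are polynomially related.  It fails
unconditionally: if `K` has one isomorphism type in each size, then a test for `K` need not read its
input, while a class `J` with two types in each size forces every test to read a long part of it.
-/

namespace Pool.Agent.Results.MP_28ce77_lc.ConstantTimeTest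

open FirstOrder Filter

/-! ## First-order definable classes of finite structures -/

/-- A finite signature: the arities of its relation symbols and of its function symbols (function
symbols of arity `0` are the constant symbols). -/
structure Sig where
  rel : List ℕ
  fn : List ℕ

/-- The first-order language of a finite signature. -/
def Sig.lang (σ : Sig) : FirstOrder.Language.{0, 0} where
  Functions k := {i : Fin σ.fn.length // σ.fn.get i = k}
  Relations k := {i : Fin σ.rel.length // σ.rel.get i = k}

/-- The `n`-element members, with universe `Fin n`, of the class of the finite models of `φ`. -/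
def Member (σ : Sig) (φ : σ.lang.Sentence) (n : ℕ) : Type :=
  {S : σ.lang.Structure (Fin n) // @FirstOrder.Language.Sentence.Realize σ.lang (Fin n) S φ}

/-- Two structures with universe `Fin n` are isomorphic. -/
def Iso {σ : Sig} {n : ℕ} (A B : σ.lang.Structure (Fin n)) : Prop :=
  Nonempty (@FirstOrder.Language.Equiv σ.lang (Fin n) (Fin n) A B)

theorem Iso.refl {σ : Sig} {n : ℕ} (A : σ.lang.Structure (Fin n)) : Iso A A :=
  ⟨@FirstOrder.Language.Equiv.refl σ.lang (Fin n) A⟩

theorem Iso.symm {σ : Sig} {n : ℕ} {A B : σ.lang.Structure (Fin n)} (h : Iso A B) : Iso B A := by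
  obtain ⟨e⟩ := h
  exact ⟨@FirstOrder.Language.Equiv.symm σ.lang (Fin n) (Fin n) A B e⟩

theorem Iso.trans {σ : Sig} {n : ℕ} {A B C : σ.lang.Structure (Fin n)} (h : Iso A B)
    (h' : Iso B C) : Iso A C := by
  obtain ⟨e⟩ := h
  obtain ⟨e'⟩ := h'
  exact ⟨@FirstOrder.Language.Equiv.comp σ.lang (Fin n) (Fin n) A B (Fin n) C e' e⟩

/-- Isomorphism as an equivalence relation on the `n`-element members. -/
def isoSetoid (σ : Sig) (φ : σ.lang.Sentence) (n : ℕ) : Setoid (Member σ φ n) where
  r A B := Iso A.1 B.1
  iseqv := ⟨fun A => Iso.refl A.1, fun h => h.symm, fun h h' => h.trans h'⟩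

/-- The number of isomorphism types of `n`-element members. -/
noncomputable def typeCount (σ : Sig) (φ : σ.lang.Sentence) (n : ℕ) : ℕ :=
  Nat.card (Quotient (isoSetoid σ φ n))

/-! ## Full tables as words -/

/-- The input alphabet. -/
inductive Letter
  | zero
  | one
  | sep

open Classical in
/-- The table of the relation symbol number `i`: its truth values on all tuples. -/
noncomputable def relTable {σ : Sig} {n : ℕ} (S : σ.lang.Structure (Fin n))
    (i : Fin σ.rel.length) : List Letter :=
  (List.finRange (n ^ σ.rel.get i)).map fun j =>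
    if S.RelMap (⟨i, rfl⟩ : σ.lang.Relations (σ.rel.get i)) (finFunctionFinEquiv.symm j)
      then Letter.one else Letter.zero

/-- The table of the function symbol number `i`: its values on all tuples (in unary). -/
def fnTable {σ : Sig} {n : ℕ} (S : σ.lang.Structure (Fin n))
    (i : Fin σ.fn.length) : List Letter :=
  (List.finRange (n ^ σ.fn.get i)).flatMap fun j =>
    List.replicate (S.funMap (⟨i, rfl⟩ : σ.lang.Functions (σ.fn.get i))
      (finFunctionFinEquiv.symm j)).val Letter.one ++ [Letter.sep]

/-- All tables of a structure. -/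
noncomputable def tables {σ : Sig} {n : ℕ} (S : σ.lang.Structure (Fin n)) : List Letter :=
  (List.finRange σ.rel.length).flatMap (relTable S) ++
    (List.finRange σ.fn.length).flatMap (fnTable S)

/-- The input word for the pair `A, B`: the number `n` in unary and the tables of `A` and `B`. -/
noncomputable def input {σ : Sig} {n : ℕ} (A B : σ.lang.Structure (Fin n)) : List Letter :=
  List.replicate n Letter.one ++ [Letter.sep] ++ tables A ++ [Letter.sep] ++ tables B

/-! ## Deterministic multitape Turing machines -/

/-- Tape symbols: the blank `inl none`, the input letters and `a` further symbols. -/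
abbrev Sym (a : ℕ) : Type := Option Letter ⊕ Fin a

/-- A deterministic Turing machine with one input tape and `work` work tapes, all two-way infinite
and all read-write.  State `0` is initial; `halt q = some b` means that `q` is a halting state with
answer `b`. -/
structure Machine where
  work : ℕ
  extra : ℕ
  states : ℕ
  delta : Fin (states + 1) → (Fin (work + 1) → Sym extra) →
    Fin (states + 1) × (Fin (work + 1) → Sym extra) × (Fin (work + 1) → SignType)
  halt : Fin (states + 1) → Option Bool

/-- Configurations. -/
structure Config (m : Machine) where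
  state : Fin (m.states + 1)
  head : Fin (m.work + 1) → ℤ
  cell : Fin (m.work + 1) → ℤ → Sym m.extra

/-- The initial configuration: the input word stands on tape `0` from cell `0` on. -/
def start (m : Machine) (w : List Letter) : Config m where
  state := 0
  head _ := 0
  cell i z := Sum.inl (if i = 0 ∧ 0 ≤ z then w[z.toNat]? else none)

/-- One step (a halted machine does not move). -/
def next (m : Machine) (c : Config m) : Config m :=
  if (m.halt c.state).isSome then c else
    let r := m.delta c.state fun i => c.cell i (c.head i)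
    { state := r.1
      head := fun i => c.head i + (r.2.2 i : ℤ)
      cell := fun i => Function.update (c.cell i) (c.head i) (r.2.1 i) }

/-- The configuration after `t` steps. -/
def run (m : Machine) (w : List Letter) : ℕ → Config m
  | 0 => start m w
  | t + 1 => next m (run m w t)

/-- The answer after `t` steps, if the machine has halted by then. -/
def answer (m : Machine) (w : List Letter) (t : ℕ) : Option Bool := m.halt (run m w t).state

/-- The number of steps used on the input word `w`. -/
noncomputable def steps (m : Machine) (w : List Letter) : ℕ := sInf {t | (answer m w t).isSome}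

open Classical in
/-- `m` is an isomorphism testing algorithm for the class of the finite models of `φ`. -/
def IsTest (σ : Sig) (φ : σ.lang.Sentence) (m : Machine) : Prop :=
  ∀ (n : ℕ) (A B : Member σ φ n), ∃ t, answer m (input A.1 B.1) t = some (decide (Iso A.1 B.1))

/-- The largest number of steps used on a pair of `n`-element members. -/
noncomputable def maxSteps (σ : Sig) (φ : σ.lang.Sentence) (m : Machine) (n : ℕ) : ℕ :=
  sSup {s | ∃ A B : Member σ φ n, s = steps m (input A.1 B.1)}

/-- The assertion of Q1. -/
def Assertion : Prop :=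
  ∀ (σ τ : Sig) (φ : σ.lang.Sentence) (ψ : τ.lang.Sentence) (q : Polynomial ℝ),
    (∀ n, (typeCount σ φ n : ℝ) ≤ q.eval (typeCount τ ψ n : ℝ)) →
    ∃ p : Polynomial ℝ, ∀ α : Machine, IsTest τ ψ α →
      ∃ β : Machine, IsTest σ φ β ∧
        ∀ᶠ n in atTop, (maxSteps σ φ β n : ℝ) ≤ p.eval (maxSteps τ ψ α n : ℝ)

/-! ## A machine sees at most one new cell per step -/

theorem agree (m : Machine) (w w' : List Letter) (P : ℕ) (h : ∀ j < P, w[j]? = w'[j]?) (t : ℕ)
    (ht : t ≤ P) : (run m w t).state = (run m w' t).state ∧
      (∀ i, (run m w t).head i = (run m w' t).head i) ∧ (∀ i, (run m w t).head i ≤ t) ∧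
      (∀ i (z : ℤ), z < P → (run m w t).cell i z = (run m w' t).cell i z) := by
  induction t with
  | zero =>
    refine ⟨rfl, fun _ => rfl, fun i => le_rfl, fun i z hz => ?_⟩
    simp only [run, start]
    by_cases hi : i = 0 ∧ 0 ≤ z
    · rw [if_pos hi, if_pos hi, h z.toNat (by omega)]
    · rw [if_neg hi, if_neg hi]
  | succ t ih =>
    obtain ⟨h1, h2, h3, h4⟩ := ih (by omega)
    have hread : (fun i => (run m w t).cell i ((run m w t).head i)) =
        fun i => (run m w' t).cell i ((run m w' t).head i) := by
      funext i
      rw [← h2 i]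
      exact h4 i _ (lt_of_le_of_lt (h3 i) (by exact_mod_cast ht))
    simp only [run, next]
    rw [← h1]
    by_cases hh : (m.halt (run m w t).state).isSome
    · rw [if_pos hh, if_pos hh]
      exact ⟨h1, h2, fun i => (h3 i).trans (by push_cast; omega), h4⟩
    · rw [if_neg hh, if_neg hh]
      dsimp only
      rw [← hread]
      refine ⟨rfl, fun i => by rw [h2 i], fun i => ?_, fun i z hz => ?_⟩
      · have hs : ((m.delta (run m w t).state fun i => (run m w t).cell i
            ((run m w t).head i)).2.2 i : ℤ) ≤ 1 := by
          cases (m.delta (run m w t).state fun i => (run m w t).cell i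
            ((run m w t).head i)).2.2 i <;> simp
        have := h3 i
        push_cast
        linarith
      · rw [← h2 i]
        by_cases hz' : z = (run m w t).head i
        · subst hz'
          simp
        · rw [Function.update_of_ne hz', Function.update_of_ne hz']
          exact h4 i z hz

theorem answer_succ {m : Machine} {w : List Letter} {t : ℕ} {b : Bool}
    (h : answer m w t = some b) : answer m w (t + 1) = some b := by
  unfold answer at h ⊢
  simp only [run, next]
  rw [if_pos (by rw [h]; rfl), h]

theorem answer_mono {m : Machine} {w : List Letter} {t : ℕ} {b : Bool}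
    (h : answer m w t = some b) {s : ℕ} (hs : t ≤ s) : answer m w s = some b := by
  induction s, hs using Nat.le_induction with
  | base => exact h
  | succ s _ ih => exact answer_succ ih

theorem answer_unique {m : Machine} {w : List Letter} {t s : ℕ} {b b' : Bool}
    (h : answer m w t = some b) (h' : answer m w s = some b') : b = b' := by
  have h1 := answer_mono h (le_max_left t s)
  have h2 := answer_mono h' (le_max_right t s)
  exact Option.some.inj (h1.symm.trans h2)

/-- If two words agree up to position `P` but get different answers, more than `P` steps are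
used on the first of them. -/
theorem lt_steps {m : Machine} {w w' : List Letter} {P : ℕ} (h : ∀ j < P, w[j]? = w'[j]?)
    {t t' : ℕ} {b b' : Bool} (ht : answer m w t = some b) (ht' : answer m w' t' = some b')
    (hb : b ≠ b') : P < steps m w := by
  have hne : {t | (answer m w t).isSome}.Nonempty := ⟨t, by
    change (answer m w t).isSome
    rw [ht]
    rfl⟩
  have hmem := Nat.sInf_mem hne
  change (answer m w (steps m w)).isSome at hmem
  obtain ⟨c, hc⟩ := Option.isSome_iff_exists.1 hmem
  by_contra hcon
  have hst := (agree m w w' P h (steps m w) (not_lt.1 hcon)).1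
  have hc' : answer m w' (steps m w) = some c := by
    unfold answer at hc ⊢
    rw [← hst]
    exact hc
  exact hb ((answer_unique ht hc).trans (answer_unique hc' ht'))

/-! ## The class `J`: sets with at most one marked element -/

/-- The signature of `J`: one unary predicate. -/
def sigJ : Sig := ⟨[1], []⟩

/-- The predicate symbol. -/
def predJ : sigJ.lang.Relations 1 := ⟨(0 : Fin 1), rfl⟩

/-- The sentence: any two marked elements are equal. -/
noncomputable def phiJ : sigJ.lang.Sentence :=
  ((predJ.boundedFormula₁ (FirstOrder.Language.Term.var (Sum.inr (0 : Fin 2))) :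
      sigJ.lang.BoundedFormula Empty 2).imp
    ((predJ.boundedFormula₁ (FirstOrder.Language.Term.var (Sum.inr (1 : Fin 2)))).imp
      (FirstOrder.Language.Term.bdEqual (FirstOrder.Language.Term.var (Sum.inr (0 : Fin 2)))
        (FirstOrder.Language.Term.var (Sum.inr (1 : Fin 2)))))).all.all

/-- The element `x` is marked in `S`. -/
def marked {n : ℕ} (S : sigJ.lang.Structure (Fin n)) (x : Fin n) : Prop := S.RelMap predJ ![x]

theorem realize_phiJ {n : ℕ} (S : sigJ.lang.Structure (Fin n)) :
    @FirstOrder.Language.Sentence.Realize sigJ.lang (Fin n) S phiJ ↔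
      ∀ x y, marked S x → marked S y → x = y := by
  let _ := S
  simp only [FirstOrder.Language.Sentence.Realize, FirstOrder.Language.Formula.Realize, phiJ,
    FirstOrder.Language.BoundedFormula.realize_all, FirstOrder.Language.BoundedFormula.realize_imp,
    FirstOrder.Language.BoundedFormula.realize_rel₁,
    FirstOrder.Language.BoundedFormula.realize_bdEqual, FirstOrder.Language.Term.realize_var,
    Sum.elim_inr, marked]
  rfl

/-- Every symbol of the signature is the predicate symbol. -/
theorem rel_cases {n : ℕ} {motive : (k : ℕ) → sigJ.lang.Relations k → (Fin k → Fin n) → Prop}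
    (h : ∀ x : Fin n, motive 1 predJ ![x]) (k : ℕ) (r : sigJ.lang.Relations k)
    (x : Fin k → Fin n) : motive k r x := by
  obtain ⟨i, hi⟩ := r
  have hi0 : i = (0 : Fin 1) := Subsingleton.elim (α := Fin 1) _ _
  subst hi0
  have hk : k = 1 := hi.symm
  subst hk
  have hx : x = ![x 0] := by
    funext j
    rw [Subsingleton.elim j 0]
    rfl
  rw [hx]
  exact h (x 0)

theorem fun_cases {k : ℕ} (f : sigJ.lang.Functions k) : False := (f.1 : Fin 0).elim0

/-- A permutation matching the marked elements gives an isomorphism. -/
theorem iso_of {n : ℕ} {A B : sigJ.lang.Structure (Fin n)} (e : Fin n ≃ Fin n)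
    (h : ∀ x, marked B (e x) ↔ marked A x) : Iso A B := by
  refine ⟨@FirstOrder.Language.Equiv.mk sigJ.lang (Fin n) (Fin n) A B e
    (fun f _ => (fun_cases f).elim) (fun {k} r x => ?_)⟩
  refine rel_cases (motive := fun k r x => B.RelMap r (e.toFun ∘ x) ↔ A.RelMap r x) ?_ k r x
  intro x
  have hx : e.toFun ∘ ![x] = ![e x] := by
    funext j
    rw [Subsingleton.elim j 0]
    rfl
  rw [hx]
  exact h x

theorem exists_perm {n : ℕ} {A B : sigJ.lang.Structure (Fin n)} (h : Iso A B) :
    ∃ e : Fin n ≃ Fin n, ∀ x, marked B (e x) ↔ marked A x := by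
  obtain ⟨e⟩ := h
  refine ⟨@FirstOrder.Language.Equiv.toEquiv sigJ.lang (Fin n) (Fin n) A B e, fun x => ?_⟩
  have h1 := @FirstOrder.Language.Equiv.map_rel' sigJ.lang (Fin n) (Fin n) A B e 1 predJ ![x]
  have hx : (@FirstOrder.Language.Equiv.toEquiv sigJ.lang (Fin n) (Fin n) A B e).toFun ∘ ![x] =
      ![@FirstOrder.Language.Equiv.toEquiv sigJ.lang (Fin n) (Fin n) A B e x] := by
    funext j
    rw [Subsingleton.elim j 0]
    rfl
  rw [hx] at h1
  exact h1

theorem marked_iso {n : ℕ} {A B : sigJ.lang.Structure (Fin n)} (h : Iso A B) :
    (∃ x, marked A x) ↔ ∃ x, marked B x := by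
  obtain ⟨e, key⟩ := exists_perm h
  constructor
  · rintro ⟨x, hx⟩
    exact ⟨e x, (key x).2 hx⟩
  · rintro ⟨x, hx⟩
    refine ⟨e.symm x, (key _).1 ?_⟩
    rw [Equiv.apply_symm_apply]
    exact hx

theorem struct_ext {n : ℕ} {A B : sigJ.lang.Structure (Fin n)}
    (h : ∀ x, marked A x ↔ marked B x) : A = B := by
  refine FirstOrder.Language.Structure.ext ?_ ?_
  · funext k f
    exact (fun_cases f).elim
  · funext k r x
    exact rel_cases (motive := fun k r x => A.RelMap r x = B.RelMap r x)
      (fun x => propext (h x)) k r x

instance (n : ℕ) : Finite (Member sigJ phiJ n) := by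
  refine Finite.of_injective (fun S : Member sigJ phiJ n => marked S.1) ?_
  intro S T hST
  exact Subtype.ext (struct_ext fun x => iff_of_eq (congrFun hST x))

/-- The structure with the given marked elements. -/
@[reducible] def mkJ {n : ℕ} (P : Fin n → Prop) : sigJ.lang.Structure (Fin n) where
  funMap f _ := (fun_cases f).elim
  RelMap {k} _ x := ∃ j : Fin k, P (x j)

theorem marked_mkJ {n : ℕ} (P : Fin n → Prop) (x : Fin n) : marked (mkJ P) x ↔ P x := by
  constructor
  · rintro ⟨j, hj⟩
    rw [Subsingleton.elim j 0] at hj
    exact hj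
  · intro h
    exact ⟨0, h⟩

theorem iso_members {n : ℕ} (A B : Member sigJ phiJ n)
    (h : (∃ x, marked A.1 x) ↔ ∃ x, marked B.1 x) : Iso A.1 B.1 := by
  classical
  have hA := (realize_phiJ A.1).1 A.2
  have hB := (realize_phiJ B.1).1 B.2
  by_cases hx : ∃ x, marked A.1 x
  · obtain ⟨x, hx'⟩ := hx
    obtain ⟨y, hy⟩ := h.1 ⟨x, hx'⟩
    refine iso_of (Equiv.swap x y) fun z => ?_
    constructor
    · intro hz
      have h1 : Equiv.swap x y z = y := hB _ _ hz hy
      have h2 : z = x := by
        apply (Equiv.swap x y).injective
        rw [h1, Equiv.swap_apply_left]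
      rw [h2]
      exact hx'
    · intro hz
      rw [hA z x hz hx', Equiv.swap_apply_left]
      exact hy
  · have hy : ¬ ∃ x, marked B.1 x := fun hy => hx (h.2 hy)
    push Not at hx hy
    exact iso_of (Equiv.refl _) fun z => ⟨fun hz => (hy z hz).elim, fun hz => (hx z hz).elim⟩

theorem typeCount_le (n : ℕ) : typeCount sigJ phiJ n ≤ 2 := by
  classical
  have hinj : Function.Injective (fun q : Quotient (isoSetoid sigJ phiJ n) =>
      decide (∃ x, marked q.out.1 x)) := by
    intro q q' hq
    have h1 : (∃ x, marked q.out.1 x) ↔ ∃ x, marked q'.out.1 x := decide_eq_decide.1 hq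
    rw [← q.out_eq, ← q'.out_eq]
    exact Quotient.sound (iso_members _ _ h1)
  have := Nat.card_le_card_of_injective _ hinj
  simpa [typeCount] using this

/-- Every isomorphism testing algorithm for `J` uses more than `n` steps on some pair of
`n`-element members, for all `n ≥ 1`. -/
theorem lt_maxSteps {β : Machine} (hβ : IsTest sigJ phiJ β) {n : ℕ} (hn : 1 ≤ n) :
    n < maxSteps sigJ phiJ β n := by
  classical
  let A : Member sigJ phiJ n := ⟨mkJ fun _ => False, (realize_phiJ _).2 fun x y hx =>
    ((marked_mkJ _ _).1 hx).elim⟩
  let B : Member sigJ phiJ n := ⟨mkJ fun x => x = ⟨0, hn⟩, (realize_phiJ _).2 fun x y hx hy =>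
    ((marked_mkJ _ _).1 hx).trans ((marked_mkJ _ _).1 hy).symm⟩
  obtain ⟨t, ht⟩ := hβ n A A
  obtain ⟨t', ht'⟩ := hβ n A B
  have hAB : ¬ Iso A.1 B.1 := by
    intro h
    obtain ⟨x, hx⟩ := (marked_iso h).2
      ⟨⟨0, hn⟩, (marked_mkJ (fun x => x = ⟨0, hn⟩) ⟨0, hn⟩).2 rfl⟩
    exact (marked_mkJ (fun _ => False) x).1 hx
  have hb : decide (Iso A.1 A.1) ≠ decide (Iso A.1 B.1) := by
    rw [decide_eq_true (Iso.refl A.1), decide_eq_false hAB]
    decide
  have hagree : ∀ j < n + 1, (input A.1 A.1)[j]? = (input A.1 B.1)[j]? := by
    intro j hj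
    have hlen : j < (List.replicate n Letter.one ++ [Letter.sep] ++ tables A.1 ++
        [Letter.sep]).length := by
      simp only [List.length_append, List.length_replicate, List.length_singleton]
      omega
    unfold input
    rw [List.getElem?_append_left hlen, List.getElem?_append_left hlen]
  have h1 := lt_steps hagree ht ht' hb
  have hfin : {s | ∃ A B : Member sigJ phiJ n, s = steps β (input A.1 B.1)}.Finite := by
    have : (Set.range fun p : Member sigJ phiJ n × Member sigJ phiJ n =>
        steps β (input p.1.1 p.2.1)).Finite := Set.finite_range _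
    refine this.subset ?_
    rintro s ⟨A, B, rfl⟩
    exact ⟨(A, B), rfl⟩
  have h2 : steps β (input A.1 A.1) ≤ maxSteps sigJ phiJ β n :=
    le_csSup hfin.bddAbove ⟨A, A, rfl⟩
  omega

/-! ## The class `K` -/

/-- The machine that answers `yes` at once. -/
def yesMachine : Machine where
  work := 0
  extra := 0
  states := 0
  delta q r := (q, r, fun _ => 0)
  halt _ := some true

/-- The machine that answers `yes` at once tests isomorphism for every class in which any two
members of the same size are isomorphic. -/
theorem isTest_yes {τ : Sig} {ψ : τ.lang.Sentence}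
    (h : ∀ (n : ℕ) (A B : Member τ ψ n), Iso A.1 B.1) : IsTest τ ψ yesMachine := by
  classical
  intro n A B
  refine ⟨0, ?_⟩
  have h1 := h n A B
  simp only [h1, decide_true]
  rfl

theorem maxSteps_yes (τ : Sig) (ψ : τ.lang.Sentence) (n : ℕ) :
    maxSteps τ ψ yesMachine n = 0 := by
  have h0 : ∀ w, steps yesMachine w = 0 := by
    intro w
    unfold steps
    rw [Nat.sInf_eq_zero]
    exact Or.inl rfl
  unfold maxSteps
  have hsub : {s | ∃ A B : Member τ ψ n, s = steps yesMachine (input A.1 B.1)} ⊆ {0} := by
    rintro s ⟨A, B, rfl⟩
    exact h0 _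
  rcases Set.subset_singleton_iff_eq.1 hsub with h | h
  · rw [h]; simp
  · rw [h]; simp

/-- The empty signature. -/
def sigK : Sig := ⟨[], []⟩

theorem iso_K (n : ℕ) (A B : Member sigK ⊤ n) : Iso A.1 B.1 :=
  ⟨@FirstOrder.Language.Equiv.mk sigK.lang (Fin n) (Fin n) A.1 B.1 (Equiv.refl _)
    (fun f _ => ((f.1 : Fin 0).elim0)) (fun r _ => ((r.1 : Fin 0).elim0))⟩

/-- **Result.**  `J` is the class of the finite sets with at most one marked element.
(1) `J` has at most two isomorphism types in each size.  (2) Every isomorphism testing algorithm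
for `J` uses more than `n` steps on some pair of `n`-element members (`n ≥ 1`).  (3) For every
first-order definable class in which any two members of the same size are isomorphic there is an
isomorphism testing algorithm using no steps.  (4) The class of the pure finite sets is such a
class.  (5) Hence the assertion of Q1 is false. -/
theorem result :
    (∀ n, typeCount sigJ phiJ n ≤ 2) ∧
    (∀ β : Machine, IsTest sigJ phiJ β → ∀ n, 1 ≤ n → n < maxSteps sigJ phiJ β n) ∧
    (∀ (τ : Sig) (ψ : τ.lang.Sentence), (∀ (n : ℕ) (A B : Member τ ψ n), Iso A.1 B.1) →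
      ∃ α : Machine, IsTest τ ψ α ∧ ∀ n, maxSteps τ ψ α n = 0) ∧
    (∀ (n : ℕ) (A B : Member sigK ⊤ n), Iso A.1 B.1) ∧
    ¬ Assertion := by
  refine ⟨typeCount_le, fun β hβ n hn => lt_maxSteps hβ hn,
    fun τ ψ h => ⟨yesMachine, isTest_yes h, maxSteps_yes τ ψ⟩, iso_K, ?_⟩
  intro h
  obtain ⟨p, hp⟩ := h sigJ sigK phiJ ⊤ (Polynomial.C 2) (fun n => by
    rw [Polynomial.eval_C]
    exact_mod_cast typeCount_le n)
  obtain ⟨β, hβ, hev⟩ := hp yesMachine (isTest_yes iso_K)
  obtain ⟨N, hN⟩ := eventually_atTop.1 hev
  obtain ⟨M, hM⟩ := exists_nat_gt (p.eval 0)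
  have h1 := hN (max N (max M 1)) (le_max_left _ _)
  rw [maxSteps_yes, Nat.cast_zero] at h1
  have h2 := lt_maxSteps hβ (n := max N (max M 1)) (by simp)
  have h3 : M ≤ max N (max M 1) := by simp
  have h4 : (M : ℝ) < maxSteps sigJ phiJ β (max N (max M 1)) := by
    exact_mod_cast lt_of_le_of_lt h3 h2
  linarith

end Pool.Agent.Results.MP_28ce77_lc.ConstantTimeTest
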